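import Mathlib

namespace Pool.Agent.Results.MP_1adc52_al.Intermediate
open Set Pointwise

/-- The product intersection set of a sequence of subsets. -/
def HSet {G : Type*} [Group G] (A : ℕ → Set G) : Set ℕ :=
  {h | 1 ≤ h ∧ (⋂ q, A q) ^ h = ⋂ q, (A q) ^ h}

variable {G : Type*} [Group G]

def Goal (A : ℕ → Set G) : Prop :=
  (∀ q, A (q + 1) ⊆ A q) ∧ (∀ N, ∃ q, N ≤ q ∧ A (q + 1) ≠ A q) ∧
    HSet A ≠ {1} ∧ HSet A ≠ {h | 1 ≤ h}

omit [Group G] in
lemma seq (P : Set G → G → Prop) (h : ∀ s : Set G, s.Finite → ∃ x, P s x) :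
    ∃ x : ℕ → G, ∀ n, P (x '' Iio n) (x n) := by
  classical
  choose c hc using fun s : Finset G => h s s.finite_toSet
  let S : ℕ → Finset G := fun n => Nat.rec ∅ (fun _ s => insert (c s) s) n
  have hS : ∀ n, SetLike.coe (S n) = (fun n => c (S n)) '' Iio n := by
    intro n
    induction n with
    | zero => simp [S]
    | succ n ih =>
      have : S (n + 1) = insert (c (S n)) (S n) := rfl
      have e : Iio (n + 1) = insert n (Iio n) := by ext; simp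
      rw [this, Finset.coe_insert, ih, e, image_insert_eq]
  exact ⟨fun n => c (S n), fun n => hS n ▸ hc (S n)⟩

def tail (D : ℕ → Set G) (q : ℕ) : Set G := {u | ∃ n, q ≤ n ∧ u ∈ D n}

lemma final (D : ℕ → Set G) (h0 : ∀ n, (D n).Nonempty)
    (h1 : ∀ m n, m < n → ∀ u ∈ D m, u ∉ D n) (a b : ℕ) (ha : 2 ≤ a) (hb : 1 ≤ b)
    (h2 : ∀ g, ∃ q, g ∉ tail D q ^ a) (s : G) (h3 : ∀ n, s ∈ D n ^ b) : Goal (tail D) := by
  have hI : ⋂ q, tail D q = ∅ := by
    rw [eq_empty_iff_forall_notMem]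
    intro u hu
    obtain ⟨m, -, hm⟩ := mem_iInter.1 hu 0
    obtain ⟨n, hn, hn'⟩ := mem_iInter.1 hu (m + 1)
    exact h1 m n hn u hm hn'
  refine ⟨fun q u ⟨n, hn, h⟩ => ⟨n, by omega, h⟩, fun N => ⟨N, le_rfl, fun h => ?_⟩,
    fun h => ?_, fun h => ?_⟩
  · obtain ⟨u, hu⟩ := h0 N
    have : u ∈ tail D (N + 1) := h ▸ ⟨N, le_rfl, hu⟩
    obtain ⟨n, hn, hn'⟩ := this
    exact h1 N n hn u hu hn'
  · have : a ∈ HSet (tail D) := by
      refine ⟨by omega, ?_⟩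
      rw [hI, Set.empty_pow (by omega), eq_comm, eq_empty_iff_forall_notMem]
      intro g hg
      obtain ⟨q, hq⟩ := h2 g
      exact hq (mem_iInter.1 hg q)
    rw [h] at this
    have : a = 1 := this
    omega
  · have : b ∈ HSet (tail D) := h ▸ hb
    have h4 := this.2
    rw [hI, Set.empty_pow (by omega)] at h4
    have : s ∈ ⋂ q, tail D q ^ b := mem_iInter.2 fun q =>
      Set.pow_subset_pow_left (fun u hu => (⟨q, le_rfl, hu⟩ : u ∈ tail D q)) (h3 q)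
    rw [← h4] at this
    exact this

def ball (E : Set G) : Set G :=
  (insert 1 (E ∪ E⁻¹)) * (insert 1 (E ∪ E⁻¹)) * (insert 1 (E ∪ E⁻¹)) * (insert 1 (E ∪ E⁻¹)) *
    (insert 1 (E ∪ E⁻¹))

lemma ball_fin {E : Set G} (h : E.Finite) : (ball E).Finite := by
  have := (h.union h.inv).insert 1
  exact (((this.mul this).mul this).mul this).mul this

lemma mem_ball {E : Set G} {a b c d e : G} (ha : a = 1 ∨ a ∈ E ∨ a⁻¹ ∈ E)
    (hb : b = 1 ∨ b ∈ E ∨ b⁻¹ ∈ E) (hc : c = 1 ∨ c ∈ E ∨ c⁻¹ ∈ E) (hd : d = 1 ∨ d ∈ E ∨ d⁻¹ ∈ E)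
    (he : e = 1 ∨ e ∈ E ∨ e⁻¹ ∈ E) {u : G} (hu : u = a * b * c * d * e) : u ∈ ball E :=
  hu ▸ mul_mem_mul (mul_mem_mul (mul_mem_mul (mul_mem_mul ha hb) hc) hd) he

lemma two (f : G → G) (Q : G → Prop) (b : ℕ) (hb : 1 ≤ b) (s : G)
    (hs : ∀ x, Q x → s ∈ ({x, f x} : Set G) ^ b)
    (h : ∀ F : Set G, F.Finite → ∃ x, Q x ∧ ∀ u ∈ ({x, f x} : Set G), u ∉ F ∧
      ∀ v ∈ ({x, f x} : Set G), u * v ∉ F) : ∃ A : ℕ → Set G, Goal A := by
  obtain ⟨x, hx⟩ := seq (fun E x => Q x ∧ ∀ u ∈ ({x, f x} : Set G), u ∉ ball (E ∪ f '' E) ∧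
      ∀ v ∈ ({x, f x} : Set G), u * v ∉ ball (E ∪ f '' E))
      fun E hE => h _ (ball_fin (hE.union (hE.image f)))
  have hm : ∀ {m n}, m < n → ∀ {u}, u ∈ ({x m, f (x m)} : Set G) →
      u ∈ x '' Iio n ∪ f '' (x '' Iio n) := by
    rintro m n hmn u (rfl | rfl)
    · exact Or.inl ⟨m, hmn, rfl⟩
    · exact Or.inr ⟨_, ⟨m, hmn, rfl⟩, rfl⟩
  refine ⟨_, final (fun n => {x n, f (x n)}) (fun n => ⟨_, Or.inl rfl⟩)
    (fun m n hmn u hu hu' => ?_) 2 b le_rfl hb (fun g => ?_) s fun n => hs _ (hx n).1⟩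
  · exact ((hx n).2 u hu').1 (mem_ball (Or.inr (Or.inl (hm hmn hu))) (Or.inl rfl) (Or.inl rfl)
      (Or.inl rfl) (Or.inl rfl) (by simp))
  · by_contra hc
    push Not at hc
    simp only [sq] at hc
    obtain ⟨a, ⟨i, -, ha⟩, c, ⟨j, -, hc'⟩, e⟩ := hc 0
    obtain ⟨a', ⟨i', hi, ha'⟩, c', ⟨j', hj, hc''⟩, e'⟩ := hc (i + j + 1)
    simp only at e e'
    rcases lt_trichotomy i' j' with h' | rfl | h'
    · refine ((hx j').2 c' hc'').1 (mem_ball (a := a'⁻¹) (Or.inr (Or.inr (by simpa using hm h' ha')))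
        (Or.inr (Or.inl (hm (by omega) ha))) (Or.inr (Or.inl (hm (by omega) hc'))) (Or.inl rfl)
        (Or.inl rfl) ?_)
      rw [mul_one, mul_one, mul_assoc, e, ← e']; simp
    · refine ((hx i').2 a' ha').2 c' hc'' (mem_ball
        (Or.inr (Or.inl (hm (by omega) ha))) (Or.inr (Or.inl (hm (by omega) hc'))) (Or.inl rfl)
        (Or.inl rfl) (Or.inl rfl) ?_)
      rw [mul_one, mul_one, mul_one, e, e']
    · refine ((hx i').2 a' ha').1 (mem_ball
        (Or.inr (Or.inl (hm (by omega) ha))) (Or.inr (Or.inl (hm (by omega) hc')))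
        (c := c'⁻¹) (Or.inr (Or.inr (by simpa using hm h' hc''))) (Or.inl rfl) (Or.inl rfl) ?_)
      rw [mul_one, mul_one, e, ← e']; simp

lemma three (hS : (range fun x : G => x * x).Finite) (s : G) (hs : {x : G | x * x = s}.Infinite) :
    ∃ A : ℕ → Set G, Goal A := by
  obtain ⟨x, hx⟩ := seq (fun E x => x * x = s ∧ x ∉ ball E) fun E hE => by
    obtain ⟨y, h1, h2⟩ := hs.exists_notMem_finite (ball_fin hE)
    exact ⟨y, h1, h2⟩
  have hp : ∀ {m n}, m < n → x m = 1 ∨ x m ∈ x '' Iio n ∨ (x m)⁻¹ ∈ x '' Iio n :=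
    fun h => Or.inr (Or.inl ⟨_, h, rfl⟩)
  have hn : ∀ {m n}, m < n → (x m)⁻¹ = 1 ∨ (x m)⁻¹ ∈ x '' Iio n ∨ (x m)⁻¹⁻¹ ∈ x '' Iio n :=
    fun h => Or.inr (Or.inr ⟨_, h, by simp⟩)
  have hne : ∀ m n, m < n → x m ≠ x n := fun m n h e =>
    (hx n).2 (mem_ball (hp h) (Or.inl rfl) (Or.inl rfl) (Or.inl rfl) (Or.inl rfl) (by simp [e]))
  have hinj : Function.Injective x := fun m n e => by
    rcases lt_trichotomy m n with h | h | h
    · exact absurd e (hne m n h)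
    · exact h
    · exact absurd e.symm (hne n m h)
  refine ⟨_, final (fun n => {x n}) (fun n => ⟨_, rfl⟩)
    (fun m n hmn u hu hu' => hne m n hmn (hu.symm.trans hu')) 3 2 (by norm_num) (by norm_num)
    (fun g => ?_) s fun n => by rw [sq]; exact ⟨_, rfl, _, rfl, (hx n).1⟩⟩
  by_contra hc
  push Not at hc
  have hc' : ∀ q, ∃ i j k, q ≤ i ∧ q ≤ j ∧ q ≤ k ∧ x i * x j * x k = g := fun q => by
    have := hc q
    rw [pow_succ, sq] at this
    obtain ⟨_, ⟨_, ⟨i, hi, rfl⟩, _, ⟨j, hj, rfl⟩, rfl⟩, _, ⟨k, hk, rfl⟩, e⟩ := this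
    exact ⟨i, j, k, hi, hj, hk, e⟩
  have hF : (insert (s⁻¹ * g) (insert (g * s⁻¹)
      ((fun t => g⁻¹ * t) '' range fun x : G => x * x))).Finite :=
    ((hS.image _).insert _).insert _
  obtain ⟨B, hB⟩ := (hF.preimage hinj.injOn).bddAbove
  obtain ⟨i, j, k, -, -, -, e⟩ := hc' 0
  obtain ⟨a, b, c, ha, hb, hc, e'⟩ := hc' (i + j + k + B + 1)
  by_cases hab : a = b
  · subst hab
    have : c ≤ B := hB (Or.inl (by rw [← e', (hx a).1]; simp))
    omega
  by_cases hbc : b = c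
  · subst hbc
    have : a ≤ B := hB (Or.inr (Or.inl (by rw [← e', ← (hx b).1]; group)))
    omega
  by_cases hac : a = c
  · subst hac
    have : b ≤ B := hB (Or.inr (Or.inr ⟨_, ⟨x a * x b, rfl⟩, by simp only [← e']; group⟩))
    omega
  have : (b < a ∧ c < a) ∨ (a < b ∧ c < b) ∨ (a < c ∧ b < c) := by omega
  rcases this with ⟨h1, h2⟩ | ⟨h1, h2⟩ | ⟨h1, h2⟩
  · refine (hx a).2 (mem_ball (hp (m := i) (by omega)) (hp (m := j) (by omega))
      (hp (m := k) (by omega)) (hn h2) (hn h1) ?_)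
    rw [e, ← e']; group
  · refine (hx b).2 (mem_ball (hn h1) (hp (m := i) (by omega)) (hp (m := j) (by omega))
      (hp (m := k) (by omega)) (hn h2) ?_)
    have : (x a)⁻¹ * x i * x j * x k * (x c)⁻¹ = (x a)⁻¹ * (x i * x j * x k) * (x c)⁻¹ := by group
    rw [this, e, ← e']; group
  · refine (hx c).2 (mem_ball (hn h2) (hn h1) (hp (m := i) (by omega)) (hp (m := j) (by omega))
      (hp (m := k) (by omega)) ?_)
    have : (x b)⁻¹ * (x a)⁻¹ * x i * x j * x k = (x b)⁻¹ * (x a)⁻¹ * (x i * x j * x k) := by group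
    rw [this, e, ← e']; group

omit [Group G] in
lemma fiber {T : Set G} (hT : T.Infinite) (f : G → G) (hf : (f '' T).Finite) :
    ∃ s, {x ∈ T | f x = s}.Infinite := by
  by_contra hc
  push Not at hc
  refine hT ((hf.biUnion fun s _ => hc s).subset fun x hx => ?_)
  exact mem_biUnion (mem_image_of_mem f hx) ⟨hx, rfl⟩

theorem result (G : Type*) [Group G] [Infinite G] :
    ∃ A : ℕ → Set G, (∀ q, A (q + 1) ⊆ A q) ∧ (∀ N, ∃ q, N ≤ q ∧ A (q + 1) ≠ A q) ∧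
      HSet A ≠ {1} ∧ HSet A ≠ {h | 1 ≤ h} := by
  by_cases h2 : (range fun x : G => x * x).Finite
  · obtain ⟨s, hs⟩ := fiber infinite_univ (fun x : G => x * x) (by rwa [image_univ])
    exact three h2 s (by simpa using hs)
  by_cases h4 : ((fun x : G => x * x) '' range fun x : G => x * x).Finite
  · obtain ⟨s, hs⟩ := fiber h2 _ h4
    refine two id (fun x => x * x * (x * x) = s) 4 (by norm_num) s (fun x hx => ?_) fun F hF => ?_
    · rw [← hx]
      have : x * x * (x * x) = x ^ 4 := by simp [pow_succ, mul_assoc]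
      rw [this]
      exact Set.pow_mem_pow (Or.inl rfl)
    · obtain ⟨_, ⟨⟨x, rfl⟩, h1⟩, h3⟩ := hs.exists_notMem_finite
        (hF.union (hF.image fun x => x * x))
      refine ⟨x, h1, ?_⟩
      simp only [id, pair_eq_singleton, mem_singleton_iff, forall_eq]
      exact ⟨fun h => h3 (Or.inr ⟨x, h, rfl⟩), fun h => h3 (Or.inl h)⟩
  · refine two (fun x => (x * x)⁻¹) (fun _ => True) 3 (by norm_num) 1 (fun x _ => ?_)
      fun F hF => ?_
    · rw [pow_succ, sq]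
      exact ⟨_, ⟨x, Or.inl rfl, x, Or.inl rfl, rfl⟩, _, Or.inr rfl, by simp⟩
    · have hF' := hF.union hF.inv
      obtain ⟨_, ⟨_, ⟨x, rfl⟩, rfl⟩, h3⟩ := Set.Infinite.exists_notMem_finite h4
        (hF'.union ((hF'.image fun x => x * x).union (hF'.image fun x => x * x * (x * x))))
      have k1 : x ∉ F ∪ F⁻¹ := fun h => h3 (Or.inr (Or.inr ⟨x, h, rfl⟩))
      have k2 : x * x ∉ F ∪ F⁻¹ := fun h => h3 (Or.inr (Or.inl ⟨_, h, rfl⟩))
      have k4 : x * x * (x * x) ∉ F ∪ F⁻¹ := fun h => h3 (Or.inl h)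
      simp only [mem_union, mem_inv, not_or] at k1 k2 k4
      refine ⟨x, trivial, ?_⟩
      rintro u (rfl | rfl)
      · refine ⟨k1.1, ?_⟩
        rintro v (rfl | rfl)
        · exact k2.1
        · convert k1.2 using 2; group
      · refine ⟨k2.2, ?_⟩
        rintro v (rfl | rfl)
        · convert k1.2 using 2; group
        · convert k4.2 using 2; group

end Pool.Agent.Results.MP_1adc52_al.Intermediate
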